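import Mathlib

/-!
# Cuts of the coset graph of a pair `(G, H)` with `G = ⟨H, x⟩`
-/

set_option autoImplicit false

namespace Pool.Agent.Lib.MP_11cd85_al.Cut

variable {G : Type} [Group G]

/-- Right `H`-invariant sets (sets of vertices of the coset graph). -/
def Inv (H : Subgroup G) (E : Set G) : Prop := ∀ g : G, ∀ h ∈ H, (g ∈ E ↔ g * h ∈ E)

/-- The edges `{g H, g x H}` with exactly one end in `E`. -/
def bd (x : G) (E : Set G) : Set G := {g | ¬ (g ∈ E ↔ g * x ∈ E)}

/-- Left translates. -/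
def tr (t : G) (E : Set G) : Set G := {y | t⁻¹ * y ∈ E}

theorem mem_tr {t y : G} {E : Set G} : y ∈ tr t E ↔ t⁻¹ * y ∈ E := Iff.rfl

theorem mem_bd {x g : G} {E : Set G} : g ∈ bd x E ↔ ¬ (g ∈ E ↔ g * x ∈ E) := Iff.rfl

theorem tr_one (E : Set G) : tr 1 E = E := by
  ext y
  rw [mem_tr, inv_one, one_mul]

theorem tr_mul (s t : G) (E : Set G) : tr (s * t) E = tr s (tr t E) := by
  ext y
  rw [mem_tr, mem_tr, mem_tr, mul_inv_rev, mul_assoc]

theorem tr_compl (t : G) (E : Set G) : tr t Eᶜ = (tr t E)ᶜ := rfl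

theorem tr_inter (t : G) (E F : Set G) : tr t (E ∩ F) = tr t E ∩ tr t F := rfl

theorem tr_union (t : G) (E F : Set G) : tr t (E ∪ F) = tr t E ∪ tr t F := rfl

theorem tr_injective (t : G) : Function.Injective (tr t : Set G → Set G) := by
  intro E F h
  have h1 : tr t⁻¹ (tr t E) = tr t⁻¹ (tr t F) := by rw [h]
  rwa [← tr_mul, ← tr_mul, inv_mul_cancel, tr_one, tr_one] at h1

theorem tr_subset {t : G} {E F : Set G} (h : E ⊆ F) : tr t E ⊆ tr t F := fun _ hy => h hy

theorem tr_subset_iff {t : G} {E F : Set G} : tr t E ⊆ tr t F ↔ E ⊆ F := by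
  refine ⟨fun h y hy => ?_, tr_subset⟩
  have h1 : t * y ∈ tr t E := by rw [mem_tr, inv_mul_cancel_left]; exact hy
  have h2 := h h1
  rwa [mem_tr, inv_mul_cancel_left] at h2

theorem tr_nonempty {t : G} {E : Set G} : (tr t E).Nonempty ↔ E.Nonempty := by
  constructor
  · rintro ⟨y, hy⟩
    exact ⟨_, hy⟩
  · rintro ⟨y, hy⟩
    refine ⟨t * y, ?_⟩
    rw [mem_tr, inv_mul_cancel_left]
    exact hy

theorem bd_compl (x : G) (E : Set G) : bd x Eᶜ = bd x E := by
  ext g
  simp only [mem_bd, Set.mem_compl_iff]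
  tauto

theorem bd_tr (x t : G) (E : Set G) : bd x (tr t E) = tr t (bd x E) := by
  ext g
  simp only [mem_bd, mem_tr, mul_assoc]

theorem tr_eq_image (t : G) (E : Set G) : tr t E = (fun y => t * y) '' E := by
  ext y
  constructor
  · intro hy
    exact ⟨t⁻¹ * y, hy, mul_inv_cancel_left t y⟩
  · rintro ⟨z, hz, rfl⟩
    rw [mem_tr, inv_mul_cancel_left]
    exact hz

theorem ncard_tr (t : G) (E : Set G) : (tr t E).ncard = E.ncard := by
  rw [tr_eq_image]
  exact Set.ncard_image_of_injective E (mul_right_injective t)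

theorem finite_tr {t : G} {E : Set G} (h : E.Finite) : (tr t E).Finite := by
  rw [tr_eq_image]
  exact h.image _

theorem inv_compl {H : Subgroup G} {E : Set G} (h : Inv H E) : Inv H Eᶜ := fun g k hk =>
  not_congr (h g k hk)

theorem inv_inter {H : Subgroup G} {E F : Set G} (h : Inv H E) (h' : Inv H F) :
    Inv H (E ∩ F) := fun g k hk => and_congr (h g k hk) (h' g k hk)

theorem inv_union {H : Subgroup G} {E F : Set G} (h : Inv H E) (h' : Inv H F) :
    Inv H (E ∪ F) := fun g k hk => or_congr (h g k hk) (h' g k hk)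

theorem inv_tr {H : Subgroup G} {E : Set G} (h : Inv H E) (t : G) : Inv H (tr t E) := by
  intro g k hk
  rw [mem_tr, mem_tr, ← mul_assoc]
  exact h _ k hk

/-- A set with empty boundary is trivial. -/
theorem trivial_of_bd {H : Subgroup G} {x : G}
    (hgen : Subgroup.closure ((H : Set G) ∪ {x}) = ⊤) {E : Set G} (hE : Inv H E)
    (hb : bd x E = ∅) : E = ∅ ∨ E = Set.univ := by
  have h1 : ∀ g : G, g ∈ E ↔ g * x ∈ E := by
    intro g
    by_contra hg
    have : g ∈ bd x E := hg
    rw [hb] at this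
    exact this
  have h2 : ∀ (k : G), k ∈ Subgroup.closure ((H : Set G) ∪ {x}) → ∀ g : G, (g ∈ E ↔ g * k ∈ E) := by
    intro k hk
    induction hk using Subgroup.closure_induction with
    | mem k hk =>
      rcases hk with hk | hk
      · exact fun g => hE g k hk
      · rw [Set.mem_singleton_iff] at hk
        rw [hk]
        exact h1
    | one => intro g; rw [mul_one]
    | mul a b _ _ iha ihb =>
      intro g
      rw [iha g, ihb (g * a), mul_assoc]
    | inv a _ iha =>
      intro g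
      rw [iha (g * a⁻¹), inv_mul_cancel_right]
  rw [hgen] at h2
  by_cases h3 : E = ∅
  · exact Or.inl h3
  · right
    obtain ⟨e, he⟩ := Set.nonempty_iff_ne_empty.2 h3
    ext y
    simp only [Set.mem_univ, iff_true]
    have h4 := (h2 (e⁻¹ * y) (Subgroup.mem_top _) e).1 he
    rwa [mul_inv_cancel_left] at h4

/-- Submodularity. -/
theorem ncard_bd_inter_add (x : G) (E F : Set G) (hE : (bd x E).Finite) (hF : (bd x F).Finite) :
    (bd x (E ∩ F)).Finite ∧ (bd x (E ∪ F)).Finite ∧
      (bd x (E ∩ F)).ncard + (bd x (E ∪ F)).ncard ≤ (bd x E).ncard + (bd x F).ncard := by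
  have h1 : bd x (E ∩ F) ∪ bd x (E ∪ F) ⊆ bd x E ∪ bd x F := by
    intro g hg
    simp only [mem_bd, Set.mem_union, Set.mem_inter_iff] at hg ⊢
    tauto
  have h2 : bd x (E ∩ F) ∩ bd x (E ∪ F) ⊆ bd x E ∩ bd x F := by
    intro g hg
    simp only [mem_bd, Set.mem_union, Set.mem_inter_iff] at hg ⊢
    tauto
  have hfin := (hE.union hF).subset h1
  have h3 := hfin.subset Set.subset_union_left
  have h4 := hfin.subset Set.subset_union_right
  refine ⟨h3, h4, ?_⟩
  rw [← Set.ncard_union_add_ncard_inter _ _ h3 h4, ← Set.ncard_union_add_ncard_inter _ _ hE hF]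
  exact add_le_add (Set.ncard_le_ncard h1 (hE.union hF))
    (Set.ncard_le_ncard h2 (hE.subset Set.inter_subset_left))

end Pool.Agent.Lib.MP_11cd85_al.Cut
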