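import Pool.Agent.Lib.MP_11cd85_al.Cut.Triv
import Pool.Agent.Lib.MP_11cd85_al.UPR.Occ
import Pool.Agent.Lib.MP_11cd85_al.Res
import Pool.Agent.Lib.MP_11cd85_al.Mal

/-!
# Right annihilators of the Fox derivative
-/

set_option autoImplicit false

namespace Pool.Agent.Lib.MP_11cd85_al.Cut

section func

variable {G : Type} [Group G] {H : Subgroup G} {x : G}

/-- Right `H`-invariant functions with finite variation along `x` are constant. -/
theorem const_of_finite (hgen : Subgroup.closure ((H : Set G) ∪ {x}) = ⊤)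
    (htf : ∀ (g : G) (n : ℕ), 0 < n → g ^ n = 1 → g = 1)
    (hfin : ∃ m : ℕ, 0 < m ∧ x ^ m ∈ Subgroup.normalClosure (H : Set G)) {V : Type} (f : G → V)
    (hH : ∀ g, ∀ h ∈ H, f (g * h) = f g) (hx : {g | f (g * x) ≠ f g}.Finite) (a b : G) :
    f a = f b := by
  have h1 := cut_trivial hgen htf hfin (E := {g | f g = f b})
    (by
      intro g h hh
      have := hH g h hh
      simp only [Set.mem_ofPred_eq, this])
    (hx.subset (by
      intro g hg
      simp only [mem_bd, Set.mem_ofPred_eq] at hg ⊢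
      intro h2
      rw [h2] at hg
      exact hg Iff.rfl))
  rcases h1 with h1 | h1
  · exfalso
    have h2 : b ∈ {g | f g = f b} := rfl
    rw [h1] at h2
    exact h2
  · have h2 : a ∈ {g | f g = f b} := by rw [h1]; exact Set.mem_univ _
    exact h2

open MeasureTheory in
/-- Right `H`-invariant real functions with summable variation along `x` are constant. -/
theorem const_of_summable [Countable G] (hgen : Subgroup.closure ((H : Set G) ∪ {x}) = ⊤)
    (htf : ∀ (g : G) (n : ℕ), 0 < n → g ^ n = 1 → g = 1)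
    (hfin : ∃ m : ℕ, 0 < m ∧ x ^ m ∈ Subgroup.normalClosure (H : Set G)) (f : G → ℝ)
    (hH : ∀ g, ∀ h ∈ H, f (g * h) = f g) (hx : Summable fun g => |f (g * x) - f g|) (a b : G) :
    ¬ f a < f b := by
  intro hab
  -- the levels
  let I : G → Set ℝ := fun g => {c | ¬ (c < f g ↔ c < f (g * x))}
  have hI : ∀ g, volume (I g) ≤ ENNReal.ofReal |f (g * x) - f g| := by
    intro g
    have h1 : I g ⊆ Set.Ico (min (f g) (f (g * x))) (max (f g) (f (g * x))) := by
      intro c hc
      have hc' : ¬ (c < f g ↔ c < f (g * x)) := hc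
      rw [Set.mem_Ico, min_le_iff, lt_max_iff]
      by_cases h2 : c < f g
      · by_cases h3 : c < f (g * x)
        · exact absurd ⟨fun _ => h3, fun _ => h2⟩ hc'
        · exact ⟨Or.inr (not_lt.1 h3), Or.inl h2⟩
      · by_cases h3 : c < f (g * x)
        · exact ⟨Or.inl (not_lt.1 h2), Or.inr h3⟩
        · exact absurd ⟨fun h => absurd h h2, fun h => absurd h h3⟩ hc'
    refine (measure_mono h1).trans ?_
    rw [Real.volume_Ico, max_sub_min_eq_abs]
  have hsum : ∑' g, volume (I g) ≠ ⊤ := by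
    apply ne_top_of_le_ne_top _ (ENNReal.tsum_le_tsum hI)
    rw [← ENNReal.ofReal_tsum_of_nonneg (fun g => abs_nonneg _) hx]
    exact ENNReal.ofReal_ne_top
  have hae : ∀ᵐ c ∂(volume : Measure ℝ), {g | c ∈ I g}.Finite :=
    ae_finite_setOfPred_mem hsum
  have hpos : volume (Set.Ioo (f a) (f b)) ≠ 0 := by
    rw [Real.volume_Ioo]
    simp only [ne_eq, ENNReal.ofReal_eq_zero, not_le]
    linarith
  obtain ⟨c, hc, hcfin⟩ : ∃ c ∈ Set.Ioo (f a) (f b), {g | c ∈ I g}.Finite := by
    by_contra hcon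
    push Not at hcon
    apply hpos
    rw [ae_iff] at hae
    refine measure_mono_null ?_ hae
    intro c hc
    exact hcon c hc
  have h1 := cut_trivial hgen htf hfin (E := {g | c < f g})
    (by
      intro g h hh
      have := hH g h hh
      simp only [Set.mem_ofPred_eq, this])
    (hcfin.subset (by
      intro g hg
      exact hg))
  rcases h1 with h1 | h1
  · have h2 : b ∈ {g | c < f g} := hc.2
    rw [h1] at h2
    exact h2
  · have h2 : a ∈ {g | c < f g} := by rw [h1]; exact Set.mem_univ _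
    have h3 : c < f a := h2
    exact absurd hc.1 (not_lt.2 h3.le)

end func

section main

variable {X₀ ι₀ : Type} (rs₀ : ι₀ → FreeGroup X₀) (r : FreeGroup (Option X₀))

/-- The image of `H` in `G`. -/
def imH : Subgroup (Gp (relQ rs₀ r)) :=
  ((pr (relQ rs₀ r)).comp (FreeGroup.map some)).range

/-- The new generator in `G`. -/
def gx : Gp (relQ rs₀ r) := pr (relQ rs₀ r) (FreeGroup.of none)

theorem gen_top : Subgroup.closure ((imH rs₀ r : Set (Gp (relQ rs₀ r))) ∪ {gx rs₀ r}) = ⊤ := by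
  have h1 : (⊤ : Subgroup (FreeGroup (Option X₀))) ≤
      (Subgroup.closure ((imH rs₀ r : Set (Gp (relQ rs₀ r))) ∪ {gx rs₀ r})).comap
        (pr (relQ rs₀ r)) := by
    rw [← FreeGroup.closure_range_of, Subgroup.closure_le]
    rintro _ ⟨o, rfl⟩
    cases o with
    | none => exact Subgroup.subset_closure (Or.inr rfl)
    | some y =>
      apply Subgroup.subset_closure
      left
      exact ⟨FreeGroup.of y, by simp⟩
  rw [eq_top_iff]
  intro g _
  obtain ⟨w, rfl⟩ := QuotientGroup.mk'_surjective (nc (relQ rs₀ r)) g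
  exact h1 (Subgroup.mem_top w)

theorem pow_mem (he : (exs X₀ r).toAdd ≠ 0) : ∃ m : ℕ, 0 < m ∧
    gx rs₀ r ^ m ∈ Subgroup.normalClosure (imH rs₀ r : Set (Gp (relQ rs₀ r))) := by
  let N : Subgroup (Gp (relQ rs₀ r)) := Subgroup.normalClosure (imH rs₀ r : Set (Gp (relQ rs₀ r)))
  have h1 : (QuotientGroup.mk' N).comp (pr (relQ rs₀ r)) =
      (zpowersHom _ (QuotientGroup.mk' N (gx rs₀ r))).comp (exs X₀) := by
    apply FreeGroup.ext_hom
    intro o
    cases o with
    | none =>
      change QuotientGroup.mk' N (gx rs₀ r) = _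
      unfold exs
      rw [MonoidHom.comp_apply, FreeGroup.lift_apply_of, if_pos rfl, zpowersHom_apply]
      simp
    | some y =>
      have h2 : QuotientGroup.mk' N (pr (relQ rs₀ r) (FreeGroup.of (some y))) = 1 := by
        apply (QuotientGroup.eq_one_iff _).2
        apply Subgroup.subset_normalClosure
        exact ⟨FreeGroup.of y, by simp⟩
      change QuotientGroup.mk' N (pr (relQ rs₀ r) (FreeGroup.of (some y))) = _
      rw [h2]
      unfold exs
      rw [MonoidHom.comp_apply, FreeGroup.lift_apply_of, if_neg (Option.some_ne_none y), map_one]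
  have h2 := DFunLike.congr_fun h1 r
  have h3 : pr (relQ rs₀ r) r = 1 := pr_rel (relQ rs₀ r) none
  rw [MonoidHom.comp_apply, h3, map_one, MonoidHom.comp_apply, zpowersHom_apply] at h2
  have h4 : gx rs₀ r ^ (exs X₀ r).toAdd ∈ N := by
    rw [← QuotientGroup.eq_one_iff]
    change QuotientGroup.mk' N _ = 1
    rw [map_zpow]
    exact h2.symm
  refine ⟨(exs X₀ r).toAdd.natAbs, Int.natAbs_pos.2 he, ?_⟩
  rcases Int.natAbs_eq (exs X₀ r).toAdd with h5 | h5
  · rw [h5, zpow_natCast] at h4
    exact h4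
  · rw [h5, zpow_neg, zpow_natCast] at h4
    exact (Subgroup.inv_mem_iff _).1 h4

/-- The left translation of functions. -/
def ltr (G V : Type) [Group G] [AddCommGroup V] : G →* AddMonoid.End (G → V) where
  toFun g :=
    { toFun := fun f z => f (g⁻¹ * z)
      map_zero' := rfl
      map_add' := fun _ _ => rfl }
  map_one' := by
    ext f z
    change f (1⁻¹ * z) = f z
    rw [inv_one, one_mul]
  map_mul' a b := by
    ext f z
    change f ((a * b)⁻¹ * z) = f (b⁻¹ * (a⁻¹ * z))
    rw [mul_inv_rev, mul_assoc]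

theorem ltr_apply {G V : Type} [Group G] [AddCommGroup V] (g : G) (f : G → V) (z : G) :
    ltr G V g f z = f (g⁻¹ * z) := rfl

/-- The derivation with given value on the new generator. -/
theorem exists_der [Fintype X₀] {V : Type} [AddCommGroup V] (w : Gp (relQ rs₀ r) → V)
    (hw : act (ltr (Gp (relQ rs₀ r)) V) (fox (pr (relQ rs₀ r)) none r) w = 0) :
    ∃ b : Gp (relQ rs₀ r) → Gp (relQ rs₀ r) → V,
      (∀ g h z, b (g * h) z = b g z + b h (g⁻¹ * z)) ∧ (∀ a ∈ imH rs₀ r, b a = 0) ∧
        b (gx rs₀ r) = w := by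
  classical
  obtain ⟨c, hc⟩ : ∃ c : Option X₀ → (Gp (relQ rs₀ r) → V),
      c = fun y => if y = none then w else 0 := ⟨_, rfl⟩
  have hcr : ∀ u, cr (pr (relQ rs₀ r)) (ltr (Gp (relQ rs₀ r)) V) c u =
      act (ltr (Gp (relQ rs₀ r)) V) (fox (pr (relQ rs₀ r)) none u) w := by
    intro u
    rw [cr_eq_sum, Finset.sum_eq_single none, hc]
    · rfl
    · intro y _ hy
      rw [hc]
      change act _ _ (if y = none then w else 0) = 0
      rw [if_neg hy, map_zero]
    · intro h
      exact absurd (Finset.mem_univ _) h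
  have hcH : ∀ u : FreeGroup X₀, cr (pr (relQ rs₀ r)) (ltr (Gp (relQ rs₀ r)) V) c
      (FreeGroup.map some u) = 0 := by
    intro u
    rw [hcr, fox_none, map_zero]
    rfl
  have hc0 : ∀ o, cr (pr (relQ rs₀ r)) (ltr (Gp (relQ rs₀ r)) V) c (relQ rs₀ r o) = 0 := by
    intro o
    cases o with
    | none =>
      change cr (pr (relQ rs₀ r)) (ltr (Gp (relQ rs₀ r)) V) c r = 0
      rw [hcr, hw]
    | some i => exact hcH (rs₀ i)
  have hnc : ∀ u ∈ nc (relQ rs₀ r), cr (pr (relQ rs₀ r)) (ltr (Gp (relQ rs₀ r)) V) c u = 0 :=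
    fun u hu => cr_normalClosure (pr (relQ rs₀ r)) (ltr (Gp (relQ rs₀ r)) V) c (relQ rs₀ r)
      (pr_rel (relQ rs₀ r)) hc0 hu
  have hb : ∀ u, cr (pr (relQ rs₀ r)) (ltr (Gp (relQ rs₀ r)) V) c
      (Quotient.out (pr (relQ rs₀ r) u)) =
        cr (pr (relQ rs₀ r)) (ltr (Gp (relQ rs₀ r)) V) c u := by
    intro v
    have h1 : (Quotient.out (pr (relQ rs₀ r) v))⁻¹ * v ∈ nc (relQ rs₀ r) :=
      QuotientGroup.eq.1 (QuotientGroup.out_eq' (pr (relQ rs₀ r) v))
    have h2 : v = Quotient.out (pr (relQ rs₀ r) v) *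
        ((Quotient.out (pr (relQ rs₀ r) v))⁻¹ * v) := by group
    conv_rhs => rw [h2]
    rw [cr_mul, hnc _ h1, map_zero, add_zero]
  refine ⟨fun g => cr (pr (relQ rs₀ r)) (ltr (Gp (relQ rs₀ r)) V) c (Quotient.out g), ?_, ?_, ?_⟩
  · intro g h z
    obtain ⟨u, rfl⟩ := QuotientGroup.mk'_surjective (nc (relQ rs₀ r)) g
    obtain ⟨v, rfl⟩ := QuotientGroup.mk'_surjective (nc (relQ rs₀ r)) h
    have h1 := hb (u * v)
    rw [map_mul, cr_mul] at h1
    have h2 := hb u
    have h3 := hb v
    change cr _ _ c (Quotient.out (pr (relQ rs₀ r) u * pr (relQ rs₀ r) v)) z =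
      cr _ _ c (Quotient.out (pr (relQ rs₀ r) u)) z +
        cr _ _ c (Quotient.out (pr (relQ rs₀ r) v)) _
    rw [h1, h2, h3]
    rfl
  · rintro _ ⟨u, rfl⟩
    exact (hb (FreeGroup.map some u)).trans (hcH u)
  · refine (hb (FreeGroup.of none)).trans ?_
    rw [cr_of, hc]
    exact if_pos rfl

variable (he : (exs X₀ r).toAdd ≠ 0)
  (htf : ∀ (w : FreeGroup (Option X₀)) (k : ℕ), 0 < k → w ^ k ∈ nc (relQ rs₀ r) →
      w ∈ nc (relQ rs₀ r))

include htf in
theorem tf (g : Gp (relQ rs₀ r)) (k : ℕ) (hk : 0 < k) (hg : g ^ k = 1) : g = 1 := by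
  obtain ⟨w, rfl⟩ := QuotientGroup.mk'_surjective (nc (relQ rs₀ r)) g
  rw [← map_pow] at hg
  exact (QuotientGroup.eq_one_iff w).2 (htf w k hk ((QuotientGroup.eq_one_iff _).1 hg))

include he htf in
/-- **No right annihilators with finite support.** -/
theorem eq_zero_of_finite [Fintype X₀] {V : Type} [AddCommGroup V] (w : Gp (relQ rs₀ r) → V)
    (hfin : {g | w g ≠ 0}.Finite)
    (hw : act (ltr (Gp (relQ rs₀ r)) V) (fox (pr (relQ rs₀ r)) none r) w = 0) : w = 0 := by
  obtain ⟨b, hb, hbH, hbx⟩ := exists_der rs₀ r w hw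
  funext z
  have h1 := const_of_finite (gen_top rs₀ r) (tf rs₀ r htf) (pow_mem rs₀ r he) (fun g => b g z)
    (by
      intro g h hh
      rw [hb, hbH h hh]
      exact add_zero _)
    (by
      have h2 : {g | b (g * gx rs₀ r) z ≠ b g z} = (fun g => g⁻¹ * z) ⁻¹' {g | w g ≠ 0} := by
        ext g
        simp only [Set.mem_ofPred_eq, Set.mem_preimage]
        rw [hb, hbx]
        simp
      change {g | b (g * gx rs₀ r) z ≠ b g z}.Finite
      rw [h2]
      apply hfin.preimage
      intro g _ g' _ h3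
      exact inv_injective (mul_right_cancel h3))
    (gx rs₀ r) 1
  have h2 : b 1 = 0 := hbH 1 (imH rs₀ r).one_mem
  change b (gx rs₀ r) z = b 1 z at h1
  rw [hbx, h2] at h1
  exact h1

include he htf in
/-- **No summable right annihilators.** -/
theorem eq_zero_of_summable [Fintype X₀] (w : Gp (relQ rs₀ r) → ℝ)
    (hsum : Summable fun g => |w g|)
    (hw : act (ltr (Gp (relQ rs₀ r)) ℝ) (fox (pr (relQ rs₀ r)) none r) w = 0) : w = 0 := by
  obtain ⟨b, hb, hbH, hbx⟩ := exists_der rs₀ r w hw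
  have hcount : Countable (Gp (relQ rs₀ r)) := by
    have h1 : Countable (FreeGroup (Option X₀)) :=
      Function.Surjective.countable (f := fun L : List (Option X₀ × Bool) => FreeGroup.mk L)
        Quot.mk_surjective
    exact Function.Surjective.countable (QuotientGroup.mk'_surjective (nc (relQ rs₀ r)))
  funext z
  have h1 := const_of_summable (gen_top rs₀ r) (tf rs₀ r htf) (pow_mem rs₀ r he) (fun g => b g z)
    (by
      intro g h hh
      rw [hb, hbH h hh]
      exact add_zero _)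
    (by
      have h2 : (fun g => |b (g * gx rs₀ r) z - b g z|) =
          (fun g => |w g|) ∘ (fun g => g⁻¹ * z) := by
        funext g
        rw [hb, hbx, Function.comp_apply, add_sub_cancel_left]
      change Summable fun g => |b (g * gx rs₀ r) z - b g z|
      rw [h2]
      apply hsum.comp_injective
      intro g g' h3
      exact inv_injective (mul_right_cancel h3))
  have h2 : b 1 = 0 := hbH 1 (imH rs₀ r).one_mem
  have h3 := h1 (gx rs₀ r) 1
  have h4 := h1 1 (gx rs₀ r)
  change ¬ b (gx rs₀ r) z < b 1 z at h3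
  change ¬ b 1 z < b (gx rs₀ r) z at h4
  rw [hbx, h2] at h3 h4
  exact le_antisymm (not_lt.1 h4) (not_lt.1 h3)

end main

end Pool.Agent.Lib.MP_11cd85_al.Cut
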