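import Pool.Agent.Lib.MP_11cd85_al.Mg.G002

/-!
# The coset graph has no finite cuts
-/

set_option autoImplicit false

open scoped Pointwise Cardinal
open Monoid

namespace Pool.Agent.Lib.MP_11cd85_al.Cut

variable {G : Type} [Group G] {H : Subgroup G} {x : G}

theorem hom_eq_one (hgen : Subgroup.closure ((H : Set G) ∪ {x}) = ⊤)
    (hfin : ∃ m : ℕ, 0 < m ∧ x ^ m ∈ Subgroup.normalClosure (H : Set G)) {K : Type} [Group K]
    (hK : ∀ (y : K) (n : ℕ), 0 < n → y ^ n = 1 → y = 1) (f : G →* K) (hf : ∀ a ∈ H, f a = 1) :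
    f = 1 := by
  obtain ⟨m, hm, hxm⟩ := hfin
  have h1 : Subgroup.normalClosure (H : Set G) ≤ f.ker :=
    Subgroup.normalClosure_le_normal fun a ha => hf a ha
  have h2 : f x ^ m = 1 := by
    rw [← map_pow]
    exact h1 hxm
  have h3 : f x = 1 := hK _ m hm h2
  have h4 : Subgroup.closure ((H : Set G) ∪ {x}) ≤ f.ker := by
    rw [Subgroup.closure_le]
    rintro y (hy | hy)
    · exact hf y hy
    · rw [Set.mem_singleton_iff] at hy
      rw [hy]
      exact h3
  ext g
  exact h4 (by rw [hgen]; exact Subgroup.mem_top g)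

theorem infinite_of_ne {K : Type} [Group K] (hK : ∀ (y : K) (n : ℕ), 0 < n → y ^ n = 1 → y = 1)
    {a : K} (ha : a ≠ 1) : Infinite K := by
  apply Infinite.of_injective (fun n : ℕ => a ^ n)
  intro k l hkl
  have hkl' : a ^ k = a ^ l := hkl
  by_contra hne
  apply ha
  rcases lt_or_gt_of_ne hne with hlt | hlt
  · apply hK _ (l - k) (Nat.sub_pos_of_lt hlt)
    rw [pow_sub _ hlt.le, hkl', mul_inv_cancel]
  · apply hK _ (k - l) (Nat.sub_pos_of_lt hlt)
    rw [pow_sub _ hlt.le, hkl', mul_inv_cancel]

/-- The family of the two vertex groups. -/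
def fam (E : Set G) (b : Bool) : Subgroup G := if b then stab (insert 1 E) else stab E

/-- The ping-pong sets. -/
def pp (E : Set G) (b : Bool) : Set G := if b then E else Eᶜ

/-- The retraction on the second vertex group, on the free product. -/
def retr (E : Set G) (b : Bool) : fam E b →* fam E true :=
  match b with
  | true => MonoidHom.id _
  | false => 1

theorem lift_bijective {E : Set G} (htf : ∀ (g : G) (n : ℕ), 0 < n → g ^ n = 1 → g = 1)
    (h : Nrm H E) (hb : Bal E) :
    Function.Bijective (CoprodI.lift fun b => (fam E b).subtype) := by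
  have hsup := sup_eq_top h hb
  constructor
  · apply CoprodI.lift_injective_of_ping_pong (fun b => (fam E b).subtype) (α := G) _ (pp E)
    · rintro (_ | _)
      · exact ⟨1, h.one⟩
      · exact h.ne
    · rintro (_ | _) (_ | _) hij
      · exact absurd rfl hij
      · exact disjoint_compl_left
      · exact disjoint_compl_right
      · exact absurd rfl hij
    · rintro (_ | _) (_ | _) hij
      · exact absurd rfl hij
      · rintro ⟨a, ha⟩ ha1
        have ha1' : a ≠ 1 := fun h2 => ha1 (Subtype.ext h2)
        have h3 := disj_of_mem h ha ha1'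
        rintro _ ⟨y, hy, rfl⟩ hy'
        have h4 : a * y ∈ E ∩ tr a E := ⟨hy', by rw [mem_tr, inv_mul_cancel_left]; exact hy⟩
        rw [h3] at h4
        exact h4
      · rintro ⟨b, hb⟩ hb1
        have hb1' : b ≠ 1 := fun h2 => hb1 (Subtype.ext h2)
        have h3 := cover_of_mem h hb hb1'
        rintro _ ⟨y, hy, rfl⟩
        have h4 : b * y ∈ E ∪ tr b E := by rw [h3]; exact Set.mem_univ _
        rcases h4 with h4 | h4
        · exact h4
        · rw [mem_tr, inv_mul_cancel_left] at h4
          exact absurd h4 hy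
      · exact absurd rfl hij
    · right
      by_contra hcon
      push Not at hcon
      have htriv : ∀ b, ∀ a ∈ fam E b, a = 1 := by
        intro b a ha
        by_contra ha1
        have h2 : Infinite (fam E b) := by
          apply infinite_of_ne (K := fam E b) _ (a := ⟨a, ha⟩) (fun h3 => ha1 (congrArg Subtype.val h3))
          intro y n hn hy
          apply Subtype.ext
          exact htf _ n hn (congrArg Subtype.val hy)
        have h3 := hcon b
        have h4 : ℵ₀ ≤ #(fam E b) := Cardinal.aleph0_le_mk _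
        have h5 : (3 : Cardinal) < ℵ₀ := Cardinal.natCast_lt_aleph0 (n := 3)
        exact absurd (h5.le.trans h4) (not_le.2 h3)
      have h2 : stab E ⊔ stab (insert 1 E) = ⊥ := by
        rw [eq_bot_iff]
        apply sup_le
        · intro a ha
          exact htriv false a ha
        · intro a ha
          exact htriv true a ha
      rw [hsup] at h2
      obtain ⟨e, he⟩ := h.ne
      have h3 : e ∈ (⊥ : Subgroup G) := by rw [← h2]; exact Subgroup.mem_top e
      rw [Subgroup.mem_bot] at h3
      rw [h3] at he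
      exact h.one he
  · rw [← MonoidHom.range_eq_top, eq_top_iff, ← hsup]
    apply sup_le
    · intro a ha
      exact ⟨CoprodI.of (i := false) (⟨a, ha⟩ : fam E false), CoprodI.lift_of _ _⟩
    · intro a ha
      exact ⟨CoprodI.of (i := true) (⟨a, ha⟩ : fam E true), CoprodI.lift_of _ _⟩

/-- **No finite cuts.** -/
theorem cut_trivial (hgen : Subgroup.closure ((H : Set G) ∪ {x}) = ⊤)
    (htf : ∀ (g : G) (n : ℕ), 0 < n → g ^ n = 1 → g = 1)
    (hfin : ∃ m : ℕ, 0 < m ∧ x ^ m ∈ Subgroup.normalClosure (H : Set G)) {E : Set G}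
    (hE : Inv H E) (hbd : (bd x E).Finite) : E = ∅ ∨ E = Set.univ := by
  by_contra hcon
  push Not at hcon
  have hNt : Nt H x E := ⟨hE, hbd, Set.nonempty_iff_ne_empty.2 hcon.1.ne_empty,
    Set.nonempty_compl.2 hcon.2⟩
  obtain ⟨k, hyp, hex⟩ := exists_hyp hgen hNt
  obtain ⟨C, hC, _⟩ := exists_nrm htf hyp hex
  have hchi : chi hC = 1 := by
    apply hom_eq_one hgen hfin _ _ fun a ha => chi_of_mem hC ha
    intro y n hn hy
    have h1 : n • Multiplicative.toAdd y = 0 := congrArg Multiplicative.toAdd hy
    rw [nsmul_eq_mul, mul_eq_zero] at h1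
    rcases h1 with h1 | h1
    · exfalso
      have : n = 0 := by exact_mod_cast h1
      omega
    · exact h1
  have hb := bal_of_chi hC hchi
  have hsup := sup_eq_top hC hb
  let e := MulEquiv.ofBijective _ (lift_bijective htf hC hb)
  have he : ∀ (b : Bool) (a : fam C b), e.symm a = CoprodI.of (M := fun b => fam C b) a := by
    intro b a
    rw [MulEquiv.symm_apply_eq]
    exact (CoprodI.lift_of (fun b => (fam C b).subtype) a).symm
  let ρ : G →* fam C true := (CoprodI.lift (retr C)).comp e.symm.toMonoidHom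
  have hρ0 : ∀ a ∈ H, ρ a = 1 := by
    intro a ha
    have h1 : ρ a = CoprodI.lift (retr C) (e.symm ((⟨a, le_stab hC ha⟩ : fam C false) : G)) := rfl
    rw [h1, he, CoprodI.lift_of]
    rfl
  have hρ : ρ = 1 := by
    apply hom_eq_one hgen hfin _ _ hρ0
    intro y n hn hy
    apply Subtype.ext
    exact htf _ n hn (congrArg Subtype.val hy)
  have hB : stab (insert 1 C) = ⊥ := by
    rw [eq_bot_iff]
    intro b hb'
    have h1 : ρ b = CoprodI.lift (retr C) (e.symm ((⟨b, hb'⟩ : fam C true) : G)) := rfl
    rw [he, CoprodI.lift_of, hρ] at h1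
    exact (congrArg Subtype.val h1).symm
  rw [hB, sup_bot_eq] at hsup
  obtain ⟨y, hy⟩ := hC.ne
  have h2 : y⁻¹ ∈ stab C := by rw [hsup]; exact Subgroup.mem_top _
  have h3 := (h2 y).1 hy
  rw [mul_inv_cancel] at h3
  exact hC.one h3

end Pool.Agent.Lib.MP_11cd85_al.Cut
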